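import Mathlib

namespace Pool.Agent.Results.MP_b004e2_gt.Counter

open Set Topology

/-- Topological manifold of dimension `n`: Hausdorff, second countable, locally homeomorphic to
open subsets of `ℝ^n`. -/
def IsMfd (n : ℕ) (M : Type) [TopologicalSpace M] : Prop :=
  T2Space M ∧ SecondCountableTopology M ∧
    ∀ x : M, ∃ U : Set M, IsOpen U ∧ x ∈ U ∧ ∃ V : Set (Fin n → ℝ), IsOpen V ∧ Nonempty (U ≃ₜ V)

/-- The group of self-homeomorphisms leaving `f` invariant. -/
def G {M : Type} [TopologicalSpace M] (f : M → ℝ) : Subgroup (M ≃ₜ M) where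
  carrier := {T | ∀ p, f (T p) = f p}
  mul_mem' := fun {a b} ha hb p => (ha (b p)).trans (hb p)
  one_mem' := fun _ => rfl
  inv_mem' := fun {a} ha p => by
    have := ha (a.symm p)
    rw [a.apply_symm_apply] at this
    exact this.symm

lemma mfdR : IsMfd 1 ℝ :=
  ⟨inferInstance, inferInstance, fun _ => ⟨univ, isOpen_univ, mem_univ _, univ, isOpen_univ,
    ⟨((Homeomorph.Set.univ ℝ).trans (Homeomorph.funUnique (Fin 1) ℝ).symm).trans
      (Homeomorph.Set.univ _).symm⟩⟩⟩

lemma mfdRR : IsMfd 1 (ℝ ⊕ ℝ) := by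
  refine ⟨inferInstance, inferInstance, fun x => ?_⟩
  cases x with
  | inl a =>
    exact ⟨range Sum.inl, isOpen_range_inl, mem_range_self _, univ, isOpen_univ,
      ⟨(IsEmbedding.inl.toHomeomorph.symm.trans (Homeomorph.funUnique (Fin 1) ℝ).symm).trans
      (Homeomorph.Set.univ _).symm⟩⟩
  | inr a =>
    exact ⟨range Sum.inr, isOpen_range_inr, mem_range_self _, univ, isOpen_univ,
      ⟨(IsEmbedding.inr.toHomeomorph.symm.trans (Homeomorph.funUnique (Fin 1) ℝ).symm).trans
      (Homeomorph.Set.univ _).symm⟩⟩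

lemma side (h : ℝ → ℝ ⊕ ℝ) (hh : Continuous h) :
    (∀ x, ∃ y, h x = Sum.inl y) ∨ (∀ x, ∃ y, h x = Sum.inr y) := by
  rcases isClopen_iff.mp (isClopen_range_inl.preimage hh) with h0 | h0
  · right
    intro x
    cases hx : h x with
    | inl a =>
      have : x ∈ h ⁻¹' range Sum.inl := ⟨a, hx.symm⟩
      rw [h0] at this
      exact this.elim
    | inr a => exact ⟨a, rfl⟩
  · left
    intro x
    have : x ∈ h ⁻¹' range Sum.inl := by rw [h0]; trivial
    obtain ⟨y, hy⟩ := this
    exact ⟨y, hy.symm⟩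

lemma not_homeo : IsEmpty (ℝ ≃ₜ ℝ ⊕ ℝ) := by
  refine ⟨fun e => ?_⟩
  rcases side e e.continuous with h | h
  · obtain ⟨y, hy⟩ := h (e.symm (Sum.inr 0))
    simp at hy
  · obtain ⟨y, hy⟩ := h (e.symm (Sum.inl 0))
    simp at hy

lemma fix_right (f0 g : ℝ → ℝ) (hg : Function.Injective g) (hr : range f0 ≠ range g)
    (T : ℝ ⊕ ℝ ≃ₜ ℝ ⊕ ℝ) (hT : T ∈ G (Sum.elim f0 g)) (x : ℝ) : T (Sum.inr x) = Sum.inr x := by
  rcases side (fun x => T (Sum.inr x)) (T.continuous.comp continuous_inr) with h | h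
  · exfalso
    apply hr
    rcases side (fun x => T (Sum.inl x)) (T.continuous.comp continuous_inl) with h' | h'
    · cases hx : T.symm (Sum.inr 0) with
      | inl a =>
        obtain ⟨y, hy⟩ := h' a
        rw [← hx] at hy
        simp at hy
      | inr a =>
        obtain ⟨y, hy⟩ := h a
        rw [← hx] at hy
        simp at hy
    · apply Subset.antisymm
      · rintro _ ⟨a, rfl⟩
        obtain ⟨y, hy⟩ := h' a
        have := hT (Sum.inl a)
        rw [hy] at this
        exact ⟨y, this⟩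
      · rintro _ ⟨a, rfl⟩
        obtain ⟨y, hy⟩ := h a
        have := hT (Sum.inr a)
        rw [hy] at this
        exact ⟨y, this⟩
  · obtain ⟨y, hy⟩ := h x
    have := hT (Sum.inr x)
    rw [hy] at this
    rw [hy, hg this]

lemma left_left (f0 g : ℝ → ℝ) (hg : Function.Injective g) (hr : range f0 ≠ range g)
    (T : ℝ ⊕ ℝ ≃ₜ ℝ ⊕ ℝ) (hT : T ∈ G (Sum.elim f0 g)) (x : ℝ) :
    T (Sum.inl x) = Sum.inl (Sum.elim id id (T (Sum.inl x))) := by
  cases hx : T (Sum.inl x) with
  | inl a => rfl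
  | inr a =>
    rw [← fix_right f0 g hg hr T hT a] at hx
    simpa using T.injective hx

lemma iso (f0 g : ℝ → ℝ) (hg : Function.Injective g) (hr : range f0 ≠ range g) :
    Nonempty (G f0 ≃* G (Sum.elim f0 g)) := by
  let φ : G f0 →* G (Sum.elim f0 g) := MonoidHom.mk'
    (fun S => ⟨Homeomorph.sumCongr S.1 (Homeomorph.refl ℝ), by
      rintro (a | a)
      · exact S.2 a
      · rfl⟩)
    (fun S S' => Subtype.ext (Homeomorph.ext (by rintro (a | a) <;> rfl)))
  refine ⟨MulEquiv.ofBijective φ ⟨fun S S' h => ?_, fun T => ?_⟩⟩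
  · refine Subtype.ext (Homeomorph.ext fun a => ?_)
    have := congrArg (fun T : G (Sum.elim f0 g) => T.1 (Sum.inl a)) h
    exact Sum.inl_injective this
  · have h1 := left_left f0 g hg hr T.1 T.2
    have h2 := left_left f0 g hg hr (T⁻¹).1 (T⁻¹).2
    have hc : Continuous (Sum.elim id id : ℝ ⊕ ℝ → ℝ) := continuous_id.sumElim continuous_id
    let S : ℝ ≃ₜ ℝ :=
      { toFun := fun x => Sum.elim id id (T.1 (Sum.inl x))
        invFun := fun x => Sum.elim id id (T.1.symm (Sum.inl x))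
        left_inv := fun x => by
          simp only
          rw [← h1 x, T.1.symm_apply_apply]; rfl
        right_inv := fun x => by
          simp only
          have h3 : T.1.symm (Sum.inl x) = Sum.inl (Sum.elim id id (T.1.symm (Sum.inl x))) := h2 x
          rw [← h3, T.1.apply_symm_apply]; rfl
        continuous_toFun := hc.comp (T.1.continuous.comp continuous_inl)
        continuous_invFun := hc.comp (T.1.symm.continuous.comp continuous_inl) }
    refine ⟨⟨S, fun a => ?_⟩, Subtype.ext (Homeomorph.ext ?_)⟩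
    · have := T.2 (Sum.inl a)
      rw [h1 a] at this
      exact this
    · rintro (a | a)
      · exact (h1 a).symm
      · exact (fix_right f0 g hg hr T.1 T.2 a).symm

theorem result : ∃ (M N : Type) (_ : TopologicalSpace M) (_ : TopologicalSpace N),
    IsMfd 1 M ∧ IsMfd 1 N ∧ IsEmpty (M ≃ₜ N) ∧
      ∀ f0 : M → ℝ, Continuous f0 → ∃ f : N → ℝ, Continuous f ∧ Nonempty (G f0 ≃* G f) := by
  refine ⟨ℝ, ℝ ⊕ ℝ, inferInstance, inferInstance, mfdR, mfdRR, not_homeo, fun f0 hf0 => ?_⟩
  by_cases h : range f0 = range (id : ℝ → ℝ)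
  · refine ⟨Sum.elim f0 Real.exp, hf0.sumElim Real.continuous_exp,
      iso f0 _ Real.exp_injective ?_⟩
    rw [h]
    intro h1
    obtain ⟨y, hy⟩ : (0:ℝ) ∈ range Real.exp := h1 ▸ ⟨0, rfl⟩
    exact (Real.exp_pos y).ne' hy
  · exact ⟨Sum.elim f0 id, hf0.sumElim continuous_id, iso f0 _ Function.injective_id h⟩

end Pool.Agent.Results.MP_b004e2_gt.Counter
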